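import Pool.Agent.X296.Kum.FinMap

/-!
# Local ideals of products with different factors
-/

set_option autoImplicit false

open Filter Topology MvPolynomial

namespace Pool.Agent.X296.Dia

open Pool.Agent.TH729.CV Pool.Agent.Y720.MZ Pool.Agent.X296.Kum

variable {K : Type*} [Field K] {L : Type*} [NontriviallyNormedField L] [CompleteSpace L]
  [CharZero L] [ProperSpace L]

/-- images under polynomial maps with bounded fibres -/
theorem FA_image_bdd {τ τ' : Type*} [Finite τ] [Finite τ'] {σ : K →+* L} {D : Set (τ → K)}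
    (h : FA σ D) (P : τ' → MvPolynomial τ K)
    (hb : ∀ R : ℝ, ∃ B : ℝ, ∀ y ∈ D, (∀ k, ‖σ (eval y (P k))‖ ≤ R) → ∀ i, ‖σ (y i)‖ ≤ B) :
    FA σ ((fun y k => eval y (P k)) '' D) := by
  have := Fintype.ofFinite τ
  have := Fintype.ofFinite τ'
  refine FA_image h P fun x => ?_
  obtain ⟨B, hB⟩ := hb (‖x‖ + 1)
  refine ⟨Metric.closedBall 0 (max B 0), isCompact_closedBall _ _, Metric.ball x 1,
    Metric.ball_mem_nhds x one_pos, fun y hy hyU => ?_⟩
  rw [mem_ball_iff_norm] at hyU
  rw [mem_closedBall_zero_iff, pi_norm_le_iff_of_nonneg (le_max_right _ _)]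
  intro i
  refine (hB y hy (fun k => ?_) i).trans (le_max_left _ _)
  have h4 := norm_le_pi_norm ((fun k => σ (eval y (P k))) - x) k
  have h5 := norm_le_pi_norm x k
  have h6 : σ (eval y (P k)) = ((fun k => σ (eval y (P k))) - x) k + x k := by simp
  rw [h6]
  refine (norm_add_le _ _).trans ?_
  linarith

variable {J : Type*} [Finite J] {τ : J → Type*} [∀ j, Finite (τ j)]

open Classical in
/-- **products with different factors** -/
theorem FA_sigma {σ : K →+* L} {D : ∀ j, Set (τ j → K)} (h : ∀ j, FA σ (D j)) :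
    FA σ {x : (Σ j, τ j) → K | ∀ j, (fun i => x ⟨j, i⟩) ∈ D j} := by
  -- the embeddings
  set E : ∀ j, (Σ j, τ j) → MvPolynomial (τ j) K := fun j a =>
    if ha : a.1 = j then X (ha ▸ a.2) else 0 with hE
  have hE1 : ∀ j (u : τ j → K) i, eval u (E j ⟨j, i⟩) = u i := by
    intro j u i
    simp [hE]
  have hE2 : ∀ j (u : τ j → K) j' i, j' ≠ j → eval u (E j ⟨j', i⟩) = 0 := by
    intro j u j' i hj
    simp [hE, hj]
  have h1 : ∀ j, FA σ ((fun u a => eval u (E j a)) '' D j) := by
    intro j
    refine FA_image_bdd (h j) (E j) fun R => ⟨R, fun y hy hyR i => ?_⟩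
    have := hyR ⟨j, i⟩
    rwa [hE1] at this
  have h2 := FA.prod h1
  set Q : (Σ j, τ j) → MvPolynomial (J × (Σ j, τ j)) K := fun a => X (a.1, a) with hQ
  have h3 : FA σ ((fun y a => eval y (Q a)) ''
      PD fun j => (fun u a => eval u (E j a)) '' D j) := by
    refine FA_image_bdd h2 Q fun R => ⟨max R 0, ?_⟩
    rintro y hy hyR ⟨j, j', i⟩
    by_cases hj : j' = j
    · subst hj
      refine le_trans ?_ (le_max_left _ _)
      have := hyR ⟨j', i⟩
      simpa [hQ] using this
    · obtain ⟨u, hu, he⟩ := hy j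
      have h4 := congrFun he ⟨j', i⟩
      simp only [hE2 j u j' i hj] at h4
      rw [← h4, map_zero, norm_zero]
      exact le_max_right _ _
  have h5 : (fun y a => eval y (Q a)) '' (PD fun j => (fun u a => eval u (E j a)) '' D j) =
      {x : (Σ j, τ j) → K | ∀ j, (fun i => x ⟨j, i⟩) ∈ D j} := by
    ext x
    constructor
    · rintro ⟨y, hy, rfl⟩ j
      obtain ⟨u, hu, he⟩ := hy j
      have h6 : (fun i => (fun a => eval y (Q a)) (⟨j, i⟩ : Σ j, τ j)) = u := by
        funext i
        have h7 := congrFun he ⟨j, i⟩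
        simp only [hE1] at h7
        rw [h7]
        simp [hQ]
      rw [h6]
      exact hu
    · intro hx
      refine ⟨fun b => eval (fun i => x ⟨b.1, i⟩) (E b.1 b.2), fun j => ⟨_, hx j, rfl⟩, ?_⟩
      funext a
      obtain ⟨j, i⟩ := a
      simp only [hQ, eval_X, hE1]
  rwa [h5] at h3

end Pool.Agent.X296.Dia
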