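import Pool.Agent.X296.Dia.Sig
import Pool.Agent.X296.Kum.QuotK

/-!
# Quotients of products of double covers of Kummer type by diagonal sign changes
-/

set_option autoImplicit false

open Filter Topology MvPolynomial Matrix

namespace Pool.Agent.X296.Dia

open Pool.Agent.TH729.CV Pool.Agent.Y720.MZ Pool.Agent.X296.Kum

section field

variable {F : Type*} [Field F] {A : Type*}

/-- the image of a point of the twist -/
def im (s : A → Bool) (d : F) (x : A → F) : A ⊕ (A × A) → F :=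
  Sum.elim (fun α => if s α then 0 else x α)
    fun a => if s a.1 && s a.2 then d * (x a.1 * x a.2) else 0

/-- the square of a coordinate -/
def sq (s : A → Bool) (p : A ⊕ (A × A) → F) (α : A) : F :=
  if s α then p (Sum.inr (α, α)) else p (Sum.inl α) ^ 2

/-- the value of a quartic polynomial at a coordinate -/
def val (s : A → Bool) (q : Fin 5 → F) (p : A ⊕ (A × A) → F) (α : A) : F :=
  q 0 + q 1 * p (Sum.inl α) + q 2 * sq s p α + q 3 * (p (Sum.inl α) * sq s p α) +
    q 4 * sq s p α ^ 2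

/-- the rank conditions -/
structure Rk (s : A → Bool) (p : A ⊕ (A × A) → F) : Prop where
  anti : ∀ α, s α = true → p (Sum.inl α) = 0
  inv : ∀ α β, (s α = false ∨ s β = false) → p (Sum.inr (α, β)) = 0
  rank : ∀ α β γ δ, p (Sum.inr (α, β)) * p (Sum.inr (γ, δ)) =
    p (Sum.inr (α, γ)) * p (Sum.inr (β, δ))

lemma im_rk (s : A → Bool) (d : F) (x : A → F) : Rk s (im s d x) := by
  refine ⟨fun α h => ?_, fun α β h => ?_, fun α β γ δ => ?_⟩
  · simp [im, h]
  · rcases h with h | h <;> simp [im, h]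
  · simp only [im, Sum.elim_inr]
    rcases Bool.eq_false_or_eq_true (s α) with h1 | h1 <;>
      rcases Bool.eq_false_or_eq_true (s β) with h2 | h2 <;>
      rcases Bool.eq_false_or_eq_true (s γ) with h3 | h3 <;>
      rcases Bool.eq_false_or_eq_true (s δ) with h4 | h4 <;>
      simp [h1, h2, h3, h4]
    ring

/-- recovering the point -/
lemma exists_im {s : A → Bool} {p : A ⊕ (A × A) → F} (hp : Rk s p)
    (h0 : ∃ α β, p (Sum.inr (α, β)) ≠ 0) : ∃ (d : F) (x : A → F), d ≠ 0 ∧ p = im s d x := by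
  have hi : ∃ α, p (Sum.inr (α, α)) ≠ 0 := by
    by_contra hcon
    push Not at hcon
    obtain ⟨α, β, h⟩ := h0
    apply h
    have := hp.rank α β α β
    rw [hcon α, zero_mul] at this
    exact mul_self_eq_zero.1 this
  obtain ⟨α, hα⟩ := hi
  refine ⟨p (Sum.inr (α, α)), fun β => if s β then p (Sum.inr (α, β)) / p (Sum.inr (α, α)) else
    p (Sum.inl β), hα, ?_⟩
  funext k
  rcases k with β | ⟨β, γ⟩
  · simp only [im, Sum.elim_inl]
    rcases Bool.eq_false_or_eq_true (s β) with h | h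
    · simp [h, hp.anti β h]
    · simp [h]
  · simp only [im, Sum.elim_inr]
    rcases Bool.eq_false_or_eq_true (s β) with h1 | h1 <;>
      rcases Bool.eq_false_or_eq_true (s γ) with h2 | h2
    · simp only [h1, h2, Bool.and_self, if_true]
      have := hp.rank α α β γ
      field_simp
      linear_combination this
    · simp [h1, h2, hp.inv β γ (Or.inr h2)]
    · simp [h1, h2, hp.inv β γ (Or.inl h1)]
    · simp [h1, h2, hp.inv β γ (Or.inl h1)]

lemma sq_im (s : A → Bool) (d : F) (x : A → F) (α : A) :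
    sq s (im s d x) α = if s α then d * x α ^ 2 else x α ^ 2 := by
  rcases Bool.eq_false_or_eq_true (s α) with h | h
  · simp only [sq, im, h, if_true, Sum.elim_inr, Bool.and_self]
    ring
  · simp [sq, im, h]

/-- the coefficients of the twist of a quartic polynomial -/
def qs (b : Bool) (d : F) (q : Fin 5 → F) : Fin 5 → F :=
  if b then ![q 0, 0, q 2 * d, 0, q 4 * d ^ 2] else q

lemma val_im (s : A → Bool) (d : F) (q : Fin 5 → F) (x : A → F) (α : A) :
    val s q (im s d x) α = qf (qs (s α) d q) ![1, x α] := by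
  have hl : im s d x (Sum.inl α) = if s α then 0 else x α := rfl
  rw [val, sq_im, hl]
  rcases Bool.eq_false_or_eq_true (s α) with h | h
  · simp only [h, if_true, qs, qf_eq, Matrix.cons_val_zero, Matrix.cons_val_one,
      Matrix.cons_val]
    ring
  · simp only [h, qs, qf_eq, Matrix.cons_val_zero, Matrix.cons_val_one,
      Matrix.cons_val, Bool.false_eq_true, if_false]
    ring

/-- changing the twist -/
lemma im_scale (s : A → Bool) (e u : F) (x : A → F) :
    im s (e * u ^ 2) x = im s e fun α => if s α then u * x α else x α := by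
  funext k
  rcases k with β | ⟨β, γ⟩
  · simp only [im, Sum.elim_inl]
    rcases Bool.eq_false_or_eq_true (s β) with h | h <;> simp [h]
  · simp only [im, Sum.elim_inr]
    rcases Bool.eq_false_or_eq_true (s β) with h1 | h1 <;>
      rcases Bool.eq_false_or_eq_true (s γ) with h2 | h2 <;> simp [h1, h2]
    ring

end field

section var

variable {J : Type*} {r : J → ℕ}

/-- the equations of the blocks -/
def Blk {F : Type*} [Field F] (q : ∀ j, Fin (r j) → Fin 5 → F) (s : (Σ j, Fin (r j + 1)) → Bool)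
    (p : (Σ j, Fin (r j + 1)) ⊕ ((Σ j, Fin (r j + 1)) × (Σ j, Fin (r j + 1))) → F) : Prop :=
  ∀ j, sq s p ⟨j, 0⟩ = ∏ i, val s (q j i) p ⟨j, i.succ⟩

/-- the affine covers -/
def TD {F : Type*} [Field F] (q : ∀ j, Fin (r j) → Fin 5 → F) (s : (Σ j, Fin (r j + 1)) → Bool)
    (d : F) : Set ((Σ j, Fin (r j + 1)) → F) :=
  {x | ∀ j, (fun i => x ⟨j, i⟩) ∈ AK (if s ⟨j, 0⟩ then d⁻¹ else 1)
    fun i => qs (s ⟨j, i.succ⟩) d (q j i)}

lemma blk_im {F : Type*} [Field F] (q : ∀ j, Fin (r j) → Fin 5 → F)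
    (s : (Σ j, Fin (r j + 1)) → Bool) {d : F} (hd : d ≠ 0) (x : (Σ j, Fin (r j + 1)) → F) :
    Blk q s (im s d x) ↔ x ∈ TD q s d := by
  refine forall_congr' fun j => ?_
  rw [sq_im]
  simp only [val_im]
  change _ ↔ x ⟨j, 0⟩ ^ 2 = (if s ⟨j, 0⟩ then d⁻¹ else 1) *
    ∏ i, qf (qs (s ⟨j, i.succ⟩) d (q j i)) ![1, x ⟨j, i.succ⟩]
  rcases Bool.eq_false_or_eq_true (s ⟨j, 0⟩) with h | h
  · simp only [h, if_true]
    constructor
    · intro e
      rw [← e, ← mul_assoc, inv_mul_cancel₀ hd, one_mul]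
    · intro e
      rw [e, ← mul_assoc, mul_inv_cancel₀ hd, one_mul]
  · simp only [h, Bool.false_eq_true, if_false, one_mul]

/-- the hypotheses -/
structure Ad {F : Type*} [Field F] (q : ∀ j, Fin (r j) → Fin 5 → F)
    (s : (Σ j, Fin (r j + 1)) → Bool) : Prop where
  sep : ∀ j i, (qp (q j i)).Separable
  deg : ∀ j i, 3 ≤ (qp (q j i)).natDegree
  even : ∀ j i, s ⟨j, i.succ⟩ = true → q j i 0 ≠ 0 ∧ q j i 4 ≠ 0 ∧
    q j i 2 ^ 2 - 4 * q j i 4 * q j i 0 ≠ 0
  free : ∃ j, ∀ k, s ⟨j, k⟩ = true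


lemma qs_sep {F : Type*} [Field F] [CharZero F] {q : Fin 5 → F} {b : Bool} {d : F} (hd : d ≠ 0)
    (h : (qp q).Separable) (he : b = true → q 0 ≠ 0 ∧ q 4 ≠ 0 ∧ q 2 ^ 2 - 4 * q 4 * q 0 ≠ 0) :
    (qp (qs b d q)).Separable := by
  rcases Bool.eq_false_or_eq_true b with hb | hb
  · subst hb
    obtain ⟨h1, h2, h3⟩ := he rfl
    have := KumK.qd_sep (r := 1) (a := fun _ => q 4) (b := fun _ => q 2) (c := fun _ => q 0) hd 0
      h1 h3
    exact this
  · subst hb
    exact h

lemma qs_deg {F : Type*} [Field F] {q : Fin 5 → F} {b : Bool} {d : F} (hd : d ≠ 0)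
    (h : 3 ≤ (qp q).natDegree) (he : b = true → q 0 ≠ 0 ∧ q 4 ≠ 0 ∧ q 2 ^ 2 - 4 * q 4 * q 0 ≠ 0) :
    3 ≤ (qp (qs b d q)).natDegree := by
  rcases Bool.eq_false_or_eq_true b with hb | hb
  · subst hb
    obtain ⟨h1, h2, h3⟩ := he rfl
    have := KumK.qd_deg (r := 1) (a := fun _ => q 4) (b := fun _ => q 2) (c := fun _ => q 0) hd 0
      h2
    exact this
  · subst hb
    exact h

/-- the points of the quotient over an arbitrary field -/
theorem exists_rep {F : Type*} [Field F] {q : ∀ j, Fin (r j) → Fin 5 → F}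
    {s : (Σ j, Fin (r j + 1)) → Bool}
    {p : (Σ j, Fin (r j + 1)) ⊕ ((Σ j, Fin (r j + 1)) × (Σ j, Fin (r j + 1))) → F}
    (he : ∀ j i, s ⟨j, i.succ⟩ = true → q j i 0 ≠ 0) (hf : ∃ j, ∀ k, s ⟨j, k⟩ = true)
    (h1 : Rk s p) (h2 : Blk q s p) : ∃ (d : F) (x : (Σ j, Fin (r j + 1)) → F), d ≠ 0 ∧
      x ∈ TD q s d ∧ p = im s d x := by
  obtain ⟨j₀, hj⟩ := hf
  have h0 : ∃ α β, p (Sum.inr (α, β)) ≠ 0 := by
    by_contra hcon
    push Not at hcon
    have h3 := h2 j₀
    have h4 : ∀ k, sq s p ⟨j₀, k⟩ = 0 := by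
      intro k
      rw [sq, hj k, if_pos rfl, hcon]
    rw [h4] at h3
    have h5 : ∏ i, val s (q j₀ i) p ⟨j₀, i.succ⟩ = ∏ i, q j₀ i 0 := by
      refine Finset.prod_congr rfl fun i _ => ?_
      rw [val, h4, h1.anti _ (hj i.succ)]
      ring
    rw [h5] at h3
    exact Finset.prod_ne_zero_iff.2 (fun i _ => he j₀ i (hj i.succ)) h3.symm
  obtain ⟨d, x, hd, rfl⟩ := exists_im h1 h0
  exact ⟨d, x, hd, (blk_im q s hd x).1 h2, rfl⟩

end var

section nf

variable {K : Type} [Field K] [NumberField K] {J : Type} {r : J → ℕ}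

/-- the same as a polynomial map -/
noncomputable def imp {A : Type*} (s : A → Bool) (d : K) : A ⊕ (A × A) → MvPolynomial A K :=
  Sum.elim (fun α => if s α then 0 else X α)
    fun a => if s a.1 && s a.2 then C d * (X a.1 * X a.2) else 0

lemma eval_imp {A : Type*} (s : A → Bool) (d : K) (x : A → K) :
    (fun k => eval x (imp s d k)) = im s d x := by
  funext k
  rcases k with α | ⟨α, β⟩
  · simp only [imp, im, Sum.elim_inl]
    split_ifs <;> simp
  · simp only [imp, im, Sum.elim_inr]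
    split_ifs <;> simp

/-- the rational points of the quotient -/
theorem pts_eq {q : ∀ j, Fin (r j) → Fin 5 → K} {s : (Σ j, Fin (r j + 1)) → Bool} (h : Ad q s) :
    ∃ D : Set K, D.Finite ∧ 0 ∉ D ∧ {p | Rk s p ∧ Blk q s p} =
      ⋃ d ∈ D, (fun x k => eval x (imp s d k)) '' TD q s d := by
  obtain ⟨j₀, hj⟩ := h.free
  obtain ⟨D, hD, hD0, hDt⟩ := exists_twists (K := K) (r := r j₀) (a := fun i => q j₀ i 4)
    (b := fun i => q j₀ i 2) (c := fun i => q j₀ i 0) (fun i => (h.even j₀ i (hj _)).2.1)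
    (fun i => (h.even j₀ i (hj _)).1)
  refine ⟨D, hD, hD0, ?_⟩
  ext p
  simp only [Set.mem_iUnion, exists_prop, Set.mem_image, Set.mem_ofPred_eq, eval_imp]
  constructor
  · rintro ⟨h1, h2⟩
    obtain ⟨d, x, hd, hx, rfl⟩ := exists_rep (fun j i hs => (h.even j i hs).1) h.free h1 h2
    have h3 : d * x ⟨j₀, 0⟩ ^ 2 =
        ∏ i, qtw (q j₀ i 4) (q j₀ i 2) (q j₀ i 0) d (x ⟨j₀, i.succ⟩) 1 := by
      have h4 := h2 j₀
      rw [sq_im, hj 0, if_pos rfl] at h4
      rw [h4]
      refine Finset.prod_congr rfl fun i _ => ?_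
      rw [val, sq_im, h1.anti _ (hj i.succ), hj i.succ, if_pos rfl, qtw]
      ring
    obtain ⟨e, he, u, hu, rfl⟩ := hDt d _ _ (fun _ => 1) hd (fun i => Or.inr one_ne_zero) h3
    have he0 : e ≠ 0 := fun h0 => hD0 (h0 ▸ he)
    rw [im_scale] at h2 ⊢
    exact ⟨e, he, _, (blk_im q s he0 _).1 h2, rfl⟩
  · rintro ⟨d, hd, x, hx, rfl⟩
    exact ⟨im_rk s d x, (blk_im q s (fun h0 => hD0 (h0 ▸ hd)) x).2 hx⟩

variable {L : Type*} [NontriviallyNormedField L] [CompleteSpace L] [CharZero L] [ProperSpace L]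
  [Finite J]

/-- **The local ideals of the rational points of the quotient.** -/
theorem pts_FA (σ : K →+* L) (hσ : DenseRange σ) {q : ∀ j, Fin (r j) → Fin 5 → K}
    {s : (Σ j, Fin (r j + 1)) → Bool} (h : Ad q s) : FA σ {p | Rk s p ∧ Blk q s p} := by
  classical
  obtain ⟨D, hDf, hD0, hE⟩ := pts_eq h
  have hun : ∀ {S : Set ((Σ j, Fin (r j + 1)) ⊕
      ((Σ j, Fin (r j + 1)) × (Σ j, Fin (r j + 1))) → K)}, FAon σ S Set.univ → FA σ S := by
    intro S hS
    unfold FAon at hS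
    rwa [Set.image_univ] at hS
  rw [hE]
  have e : (⋃ d ∈ D, (fun x k => eval x (imp s d k)) '' TD q s d) =
      ⋃ d ∈ hDf.toFinset, (fun x k => eval x (imp s d k)) '' TD q s d := by
    simp
  rw [e]
  refine hun (FAon.biUnion _ fun d hd => FA.on ?_ _)
  have hd0 : d ≠ 0 := fun h0 => hD0 (h0 ▸ hDf.mem_toFinset.1 hd)
  have hσd : 0 < ‖σ d‖ := norm_pos_iff.2 ((map_ne_zero σ).2 hd0)
  refine FA_image_bdd (FA_sigma fun j => AK_FA (mainK σ hσ ?_
    (fun i => qs_sep hd0 (h.sep j i) (h.even j i)) fun i => qs_deg hd0 (h.deg j i) (h.even j i))) _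
    fun R => ⟨1 + max R 0 / ‖σ d‖ + max R 0, fun y _ hyR α => ?_⟩
  · ext i j
    simp [Subsingleton.elim i j]
  · have h1 : ∀ k, eval y (imp s d k) = im s d y k := fun k => congrFun (eval_imp s d y) k
    simp only [h1] at hyR
    have hR0 : 0 ≤ max R 0 := le_max_right _ _
    rcases Bool.eq_false_or_eq_true (s α) with hs | hs
    · have h2 := hyR (Sum.inr (α, α))
      simp only [im, Sum.elim_inr, hs, Bool.and_self, if_true, map_mul, norm_mul] at h2
      have h3 : ‖σ (y α)‖ ^ 2 ≤ max R 0 / ‖σ d‖ := by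
        rw [le_div_iff₀ hσd]
        have := le_max_left R 0
        linarith
      have h4 := KumK.le_of_sq_le h3 (by positivity)
      linarith
    · have h2 := hyR (Sum.inl α)
      simp only [im, Sum.elim_inl, hs, Bool.false_eq_true, if_false] at h2
      have h3 : 0 ≤ max R 0 / ‖σ d‖ := by positivity
      have := le_max_left R 0
      linarith

end nf

end Pool.Agent.X296.Dia
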